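import Pool.Agent.Helper495.NN.Main

namespace Pool.Agent.Results.MP_b8b239_pr.NelsonNguyen

open Pool.Agent.Helper495.NN

/-- The Nelson-Nguyen conjecture for SparseStacks: sparsity `C (log r) / ε` and embedding dimension
`C r / ε ^ 2` suffice for an oblivious subspace embedding with distortion `1 ± ε`. -/
theorem result : ∀ δ : ℝ, 0 < δ → ∃ C : ℝ, ∀ n r : ℕ, 2 ≤ r → r ≤ n → ∀ ε : ℝ, 0 < ε → ε < 1 →
    ∃ ζ b : ℕ, 1 ≤ ζ ∧ 1 ≤ b ∧ (ζ : ℝ) ≤ C * Real.log r / ε ∧ ((b * ζ : ℕ) : ℝ) ≤ C * r / ε ^ 2 ∧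
      IsOSE n ζ b r (1 - ε) (1 + ε) δ :=
  fun δ hδ => main δ hδ

end Pool.Agent.Results.MP_b8b239_pr.NelsonNguyen
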